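import Pool.Agent.Helper55.AR.ChainA
import Pool.Agent.Helper63.AR.Count
import Pool.Agent.Helper75.AR.Cover
import Pool.Agent.Helper23.AR.ElemLe
import Pool.Agent.Helper19.AR.Sys
import Pool.Agent.Helper12.AR.Haus
import Pool.Agent.Helper15.AR.Unique

/-! `ℵ_α ^ |α| ≤ 2 ^ |α| + ℵ_λ` if `|pcf(a_α)| < λ` and `|α| < λ`. -/

set_option autoImplicit false

open Cardinal Ordinal Set Filter Helper23.Pcf Helper55.CP

universe u

namespace Helper55.AR

theorem bridge {α : Ordinal.{u}} (hα : Order.IsSuccLimit α) {lam : Cardinal.{u}}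
    (hlam : #(pcf (aSet α)) < Cardinal.lift.{u+1} lam) (hlam' : α.card < lam) :
    (ℵ_ α) ^ α.card ≤ 2 ^ α.card + ℵ_ lam.ord := by
  have h0 : ℵ₀ ≤ α.card := by
    rw [Ordinal.aleph0_le_card]
    exact Ordinal.omega0_le_of_isSuccLimit hα
  obtain ⟨γ₁, hγ⟩ := (Cardinal.mem_range_aleph_iff (c := α.card)).2 h0
  have hγ : α.card = ℵ_ γ₁ := hγ.symm
  have h2 : ℵ₀ ≤ 2 ^ α.card := h0.trans (Cardinal.cantor _).le
  have hL0 : ℵ₀ ≤ ℵ_ lam.ord := Cardinal.aleph0_le_aleph _
  rw [Cardinal.add_eq_max h2]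
  rcases le_or_gt α γ₁ with hle | hlt
  · have h3 : ℵ_ α ≤ α.card := by rw [hγ]; exact Cardinal.aleph_le_aleph.2 hle
    refine le_trans ?_ (le_max_left _ _)
    refine (Cardinal.power_le_power_right h3).trans ?_
    rw [Cardinal.power_self_eq h0]
  · obtain ⟨T, hT⟩ := sys_exists hα hγ hlt
    obtain ⟨e, e', he⟩ := e_exists.{u}
    have h6 : γ₁ + (6 : ℕ) < α := by
      have h7 : ∀ n : ℕ, γ₁ + (n : ℕ) < α := by
        intro n
        induction n with
        | zero => simpa using hlt
        | succ n ih =>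
          have := hα.succ_lt ih
          rw [← Ordinal.add_one_eq_succ, add_assoc] at this
          exact_mod_cast this
      exact h7 6
    have hl : ∀ q, T.lam q ≤ ℵ_ lam.ord := fun q =>
      Helper23.AR.pcf_elem_le hα hγ hlt hlam hlam' _ ((hT.hl _).1 ⟨q, rfl⟩)
    have hαL : γ₁ + (6 : ℕ) ≤ lam.ord := by
      refine h6.le.trans ?_
      exact (Cardinal.lt_ord.2 hlam').le
    have hμL : T.μ ≤ ℵ_ lam.ord := by rw [hT.hμ]; exact Cardinal.aleph_le_aleph.2 hαL
    have hcard := mk_good_le (e := e) (e' := e') hl hμL (ℵ_ α).ord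
      (fun M M' h h' hχ => good_unique hT h6.le hα he h h' hχ)
    have hμs : T.μ = succN α.card 6 := by
      rw [hT.hμ, hγ]
      have : ∀ n : ℕ, ℵ_ (γ₁ + (n : ℕ)) = succN (ℵ_ γ₁) n := by
        intro n
        induction n with
        | zero => simp [succN]
        | succ n ih =>
          rw [succN_succ, ← ih, ← Cardinal.aleph_succ, ← Ordinal.add_one_eq_succ, add_assoc]
          norm_cast
      exact this 6
    have hτμ : α.card ≤ T.μ := by rw [hμs]; exact le_succN _ _
    have hmain := power_le_of_cover h0 _ hcard (μ := T.μ)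
      (by rintro Z ⟨M, hM, rfl⟩; exact (Cardinal.mk_le_mk_of_subset inter_subset_left).trans hM.card)
      (fun X hX hXτ => by
        obtain ⟨M, hXM, hM⟩ := good_exists T e e' (hXτ.trans (Cardinal.lift_le.2 hτμ))
        exact ⟨_, ⟨M, hM, rfl⟩, subset_inter hXM hX⟩)
    refine hmain.trans ?_
    rw [hμs]
    refine (mul_le_mul_right (succN_power_le h0 6) _).trans ?_
    rw [← hμs]
    refine (Cardinal.mul_le_max _ _).trans (max_le (max_le (le_max_right _ _) ?_)
      (hL0.trans (le_max_right _ _)))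
    refine (Cardinal.mul_le_max _ _).trans (max_le (max_le (hμL.trans (le_max_right _ _))
      (le_max_left _ _)) (hL0.trans (le_max_right _ _)))

end Helper55.AR
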