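import Pool.Agent.Helper55.AR.Good

/-! Existence of the chain. -/

set_option autoImplicit false

open Cardinal Ordinal Set Filter Helper23.Pcf Helper55.CP

universe u

namespace Helper55.AR

/-- one step -/
theorem step_exists (T : Sys.{u}) (e e' : Ordinal.{u} → Ordinal.{u} → Ordinal.{u})
    (M : Set Ordinal.{u}) (hM : #M ≤ Cardinal.lift.{u+1} T.μ) :
    ∃ M' : Set Ordinal.{u}, #M' ≤ Cardinal.lift.{u+1} T.μ ∧ M ⊆ M' ∧
      (∀ x ∈ M, ∀ y ∈ M, e x y ∈ M' ∧ e' x y ∈ M') ∧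
      (∀ ξ ∈ M, ∀ q i, T.f q ξ i ∈ M') ∧
      (∀ q, chi M (T.lam q).ord ∈ M') ∧
      (∀ q, ∃ ξ ∈ M', ξ < (T.lam q).ord ∧
        ∀ ζ, ξ ≤ ζ → ζ < (T.lam q).ord → ∀ D, HasCof D (fun i => (T.c i).ord) (T.lam q) →
          dlt D (fun i => chi M (T.c i).ord) (T.f q ζ)) := by
  classical
  have hμ0 : ℵ₀ ≤ T.μ := T.hν.1.trans (((Order.le_succ _).trans (Order.le_succ _)).trans T.hνμ)
  have hμ' : ℵ₀ ≤ Cardinal.lift.{u+1} T.μ := Cardinal.aleph0_le_lift.2 hμ0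
  have hι : #T.ι ≤ T.μ := T.hι.le.trans (((Order.le_succ _).trans (Order.le_succ _)).trans T.hνμ)
  have hd := fun q => T.f_dom q (fun i => chi M (T.c i).ord)
    (fun i => Helper55.CP.chi_lt (T.reg i) (hM.trans_lt (Cardinal.lift_lt.2 (T.hc i))))
  choose d hd1 hd2 using hd
  have hmul : ∀ a b : Cardinal.{u+1}, a ≤ Cardinal.lift.{u+1} T.μ → b ≤ Cardinal.lift.{u+1} T.μ →
      a * b ≤ Cardinal.lift.{u+1} T.μ := fun a b ha hb =>
    (Cardinal.mul_le_max _ _).trans (max_le (max_le ha hb) hμ')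
  have hadd : ∀ a b : Set Ordinal.{u}, #a ≤ Cardinal.lift.{u+1} T.μ →
      #b ≤ Cardinal.lift.{u+1} T.μ → #(a ∪ b : Set Ordinal.{u}) ≤ Cardinal.lift.{u+1} T.μ :=
    fun a b ha hb => (Cardinal.mk_union_le _ _).trans (Cardinal.add_le_of_le hμ' ha hb)
  have hQ : Cardinal.lift.{u+1} #T.Q ≤ Cardinal.lift.{u+1} T.μ := Cardinal.lift_le.2 T.hQ
  have hI : Cardinal.lift.{u+1} #T.ι ≤ Cardinal.lift.{u+1} T.μ := Cardinal.lift_le.2 hι
  let A1 : Set Ordinal.{u} := range (fun p : M × M => e p.1.1 p.2.1)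
  let A2 : Set Ordinal.{u} := range (fun p : M × M => e' p.1.1 p.2.1)
  let A3 : Set Ordinal.{u} := range (fun p : M × (T.Q × T.ι) => T.f p.2.1 p.1.1 p.2.2)
  let A4 : Set Ordinal.{u} := range (fun q : T.Q => chi M (T.lam q).ord)
  let A5 : Set Ordinal.{u} := range d
  have h1 : #A1 ≤ Cardinal.lift.{u+1} T.μ := by
    refine Cardinal.mk_range_le.trans ?_
    rw [Cardinal.mk_prod, Cardinal.lift_id]
    exact hmul _ _ hM hM
  have h2 : #A2 ≤ Cardinal.lift.{u+1} T.μ := by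
    refine Cardinal.mk_range_le.trans ?_
    rw [Cardinal.mk_prod, Cardinal.lift_id]
    exact hmul _ _ hM hM
  have h3 : #A3 ≤ Cardinal.lift.{u+1} T.μ := by
    refine Cardinal.mk_range_le.trans ?_
    rw [Cardinal.mk_prod, Cardinal.lift_id'.{u, u+1}, Cardinal.mk_prod, Cardinal.lift_id,
      Cardinal.lift_id, Cardinal.lift_mul]
    exact hmul _ _ hM (hmul _ _ hQ hI)
  have h4 : #A4 ≤ Cardinal.lift.{u+1} T.μ := by
    have := Cardinal.mk_range_le_lift (f := fun q : T.Q => chi M (T.lam q).ord)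
    rw [Cardinal.lift_id'.{u, u+1}] at this
    exact this.trans hQ
  have h5 : #A5 ≤ Cardinal.lift.{u+1} T.μ := by
    have := Cardinal.mk_range_le_lift (f := d)
    rw [Cardinal.lift_id'.{u, u+1}] at this
    exact this.trans hQ
  refine ⟨M ∪ (A1 ∪ (A2 ∪ (A3 ∪ (A4 ∪ A5)))),
    hadd _ _ hM (hadd _ _ h1 (hadd _ _ h2 (hadd _ _ h3 (hadd _ _ h4 h5)))),
    subset_union_left, fun x hx y hy => ⟨?_, ?_⟩, fun ξ hξ q i => ?_, fun q => ?_, fun q => ?_⟩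
  · exact Or.inr (Or.inl ⟨(⟨x, hx⟩, ⟨y, hy⟩), rfl⟩)
  · exact Or.inr (Or.inr (Or.inl ⟨(⟨x, hx⟩, ⟨y, hy⟩), rfl⟩))
  · exact Or.inr (Or.inr (Or.inr (Or.inl ⟨(⟨ξ, hξ⟩, (q, i)), rfl⟩)))
  · exact Or.inr (Or.inr (Or.inr (Or.inr (Or.inl ⟨q, rfl⟩))))
  · exact ⟨d q, Or.inr (Or.inr (Or.inr (Or.inr (Or.inr ⟨q, rfl⟩)))), hd1 q, hd2 q⟩

theorem ach_exists (T : Sys.{u}) (e e' : Ordinal.{u} → Ordinal.{u} → Ordinal.{u})
    {X : Set Ordinal.{u}} (hX : #X ≤ Cardinal.lift.{u+1} T.μ) :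
    ∃ N, X ⊆ N 0 ∧ ACh T e e' N := by
  classical
  have hμ : ℵ₀ ≤ T.μ := T.hν.1.trans (((Order.le_succ _).trans (Order.le_succ _)).trans T.hνμ)
  have h0 : ℵ₀ ≤ Cardinal.lift.{u+1} T.μ := Cardinal.aleph0_le_lift.2 hμ
  have hch : ∀ M : Set Ordinal.{u}, ∃ M' : Set Ordinal.{u}, #M ≤ Cardinal.lift.{u+1} T.μ →
      (#M' ≤ Cardinal.lift.{u+1} T.μ ∧ M ⊆ M' ∧
      (∀ x ∈ M, ∀ y ∈ M, e x y ∈ M' ∧ e' x y ∈ M') ∧
      (∀ ξ ∈ M, ∀ q i, T.f q ξ i ∈ M') ∧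
      (∀ q, chi M (T.lam q).ord ∈ M') ∧
      (∀ q, ∃ ξ ∈ M', ξ < (T.lam q).ord ∧
        ∀ ζ, ξ ≤ ζ → ζ < (T.lam q).ord → ∀ D, HasCof D (fun i => (T.c i).ord) (T.lam q) →
          dlt D (fun i => chi M (T.c i).ord) (T.f q ζ))) := by
    intro M
    by_cases hM : #M ≤ Cardinal.lift.{u+1} T.μ
    · obtain ⟨M', hM'⟩ := step_exists T e e' M hM
      exact ⟨M', fun _ => hM'⟩
    · exact ⟨∅, fun h => absurd h hM⟩
  choose st hst using hch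
  let B : Set Ordinal.{u} := X ∪ Iio T.μ.ord
  have hB : #B ≤ Cardinal.lift.{u+1} T.μ := by
    refine (Cardinal.mk_union_le _ _).trans (Cardinal.add_le_of_le h0 hX ?_)
    rw [Cardinal.mk_Iio_ordinal, Cardinal.card_ord]
  have hcard : ∀ ε < (Order.succ T.μ).ord, #(iterSt st B ε) ≤ Cardinal.lift.{u+1} T.μ := by
    intro ε
    induction ε using WellFoundedLT.induction with
    | ind ε ih =>
      intro hε
      rw [iterSt_eq]
      refine (Cardinal.mk_union_le _ _).trans (Cardinal.add_le_of_le h0 hB ?_)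
      refine mk_iUnion_small hμ _ ?_ fun η => ?_
      · rw [Cardinal.mk_Iio_ordinal]
        refine Cardinal.lift_le.2 ?_
        exact Order.lt_succ_iff.1 (Cardinal.lt_ord.1 hε)
      · exact (hst _ (ih η.1 η.2 (lt_trans η.2 hε))).1
  have hsub : ∀ η ε, η < ε → st (iterSt st B η) ⊆ iterSt st B ε := fun η ε h z hz =>
    mem_iterSt.2 (Or.inr ⟨η, h, hz⟩)
  have hmono : ∀ η ε, η ≤ ε → iterSt st B η ⊆ iterSt st B ε := by
    intro η ε h z hz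
    rcases mem_iterSt.1 hz with h1 | ⟨ζ, h1, h2⟩
    · exact mem_iterSt.2 (Or.inl h1)
    · exact mem_iterSt.2 (Or.inr ⟨ζ, h1.trans_le h, h2⟩)
  refine ⟨iterSt st B, fun z hz => mem_iterSt.2 (Or.inl (Or.inl hz)),
    ⟨fun ε z hz => mem_iterSt.2 (Or.inl (Or.inr hz)), hmono, fun ε hε z hz => ?_, hcard,
    fun η ε h hε x hx y hy => ?_, fun η ε h hε ξ hξ q i => ?_, fun η ε h hε q => ?_,
    fun η ε h hε q => ?_⟩⟩
  · rcases mem_iterSt.1 hz with h1 | ⟨ζ, h1, h2⟩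
    · exact ⟨0, hε.bot_lt, mem_iterSt.2 (Or.inl h1)⟩
    · exact ⟨Order.succ ζ, hε.succ_lt h1, hsub _ _ (Order.lt_succ ζ) h2⟩
  · have := (hst _ (hcard η (h.trans hε))).2.2.1 x hx y hy
    exact ⟨hsub _ _ h this.1, hsub _ _ h this.2⟩
  · exact hsub _ _ h ((hst _ (hcard η (h.trans hε))).2.2.2.1 ξ hξ q i)
  · exact hsub _ _ h ((hst _ (hcard η (h.trans hε))).2.2.2.2.1 q)
  · obtain ⟨ξ, h1, h2, h3⟩ := (hst _ (hcard η (h.trans hε))).2.2.2.2.2 q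
    exact ⟨ξ, hsub _ _ h h1, h2, h3⟩

theorem good_exists (T : Sys.{u}) (e e' : Ordinal.{u} → Ordinal.{u} → Ordinal.{u})
    {X : Set Ordinal.{u}} (hX : #X ≤ Cardinal.lift.{u+1} T.μ) : ∃ M, X ⊆ M ∧ Good T e e' M := by
  obtain ⟨N, hXN, hN⟩ := ach_exists T e e' hX
  exact ⟨_, hXN.trans (hN.mono 0 _ zero_le), hN.good⟩

end Helper55.AR
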