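import Pool.Agent.Helper55.CP.Facts
import Pool.Agent.Helper57.CP.Chain
import Pool.Agent.Helper23.Pcf.Package
import Pool.Agent.Helper23.Pcf.Final2
import Pool.Agent.Helper23.Pcf.Localize

/-! Counting characteristic functions: the data. -/

set_option autoImplicit false

open Cardinal Ordinal Set Filter Helper23.Pcf Helper55.CP

universe u

namespace Helper55.AR

/-- pcf data: regular cardinals `c i` above `μ`, all possible cofinalities `lam q` of `∏ c / D`,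
obedient universal sequences `f q`. -/
structure Sys where
  ι : Type u
  Q : Type u
  ν : Cardinal.{u}
  μ : Cardinal.{u}
  c : ι → Cardinal.{u}
  lam : Q → Cardinal.{u}
  f : Q → Ordinal.{u} → ι → Ordinal.{u}
  hν : ν.IsRegular
  hν0 : ℵ₀ < ν
  hι : #ι < ν
  hνμ : Order.succ (Order.succ ν) ≤ μ
  hQ : #Q ≤ μ
  hc : ∀ i, μ < c i
  reg : ∀ i, (c i).IsRegular
  hlam : ∀ q, μ < lam q
  regl : ∀ q, (lam q).IsRegular
  hci : ∀ i, ∃ q, lam q = c i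
  cof : ∀ D : Ultrafilter ι, ∃ q, HasCof D (fun i => (c i).ord) (lam q)
  f_lt : ∀ q ξ i, f q ξ i < (c i).ord
  f_ob : ∀ q, ∀ δ < (lam q).ord, δ.cof = Order.succ (Order.succ ν) → ∀ E, ClubIn E δ → ∀ i,
    f q δ i ≤ supOn E δ (fun ξ => f q ξ i)
  f_dom : ∀ q, ∀ h : ι → Ordinal.{u}, (∀ i, h i < (c i).ord) → ∃ ξ < (lam q).ord, ∀ η, ξ ≤ η →
    η < (lam q).ord → ∀ D, HasCof D (fun i => (c i).ord) (lam q) → dlt D h (f q η)

/-- Good sets `M`: of size at most `μ`, containing `μ`, closed under the binary operations `e`,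
`e'`, containing clubs of their suprema, whose characteristic function is determined by a finite
set of pairs `(q, δ)`. -/
structure Good (T : Sys.{u}) (e e' : Ordinal.{u} → Ordinal.{u} → Ordinal.{u})
    (M : Set Ordinal.{u}) : Prop where
  card : #M ≤ Cardinal.lift.{u+1} T.μ
  base : Iio T.μ.ord ⊆ M
  e_mem : ∀ x ∈ M, ∀ y ∈ M, e x y ∈ M
  e'_mem : ∀ x ∈ M, ∀ y ∈ M, e' x y ∈ M
  club : ∀ i, ℵ₀ < (chi M (T.c i).ord).cof ∧ ∃ E ⊆ M, ClubIn E (chi M (T.c i).ord)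
  fin : ∃ (t : Finset T.Q) (δ : T.Q → Ordinal.{u}), (∀ q, δ q < (T.lam q).ord) ∧
    (∀ i, ∀ q ∈ t, T.f q (δ q) i ≤ chi M (T.c i).ord) ∧
    ∀ i, ∃ q ∈ t, chi M (T.c i).ord = T.f q (δ q) i

/-- the trace of the system on `ℵ_ γ₀, ℵ_ α` -/
structure Match (T : Sys.{u}) (γ₀ α : Ordinal.{u}) : Prop where
  hμ : T.μ = ℵ_ γ₀
  hc : ∀ k : Cardinal.{u}, (∃ i, T.c i = k) ↔ k ∈ ival (ℵ_ γ₀) (ℵ_ α)
  hl : ∀ k : Cardinal.{u}, (∃ q, T.lam q = k) ↔ k ∈ pcfS (ival (ℵ_ γ₀) (ℵ_ α))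

/-- A continuous chain of sets of size at most `μ`, each closed off over the previous ones. -/
structure ACh (T : Sys.{u}) (e e' : Ordinal.{u} → Ordinal.{u} → Ordinal.{u})
    (N : Ordinal.{u} → Set Ordinal.{u}) : Prop where
  base : ∀ ε, Iio T.μ.ord ⊆ N ε
  mono : ∀ η ε, η ≤ ε → N η ⊆ N ε
  lim : ∀ ε, Order.IsSuccLimit ε → ∀ z ∈ N ε, ∃ η < ε, z ∈ N η
  card : ∀ ε < (Order.succ T.μ).ord, #(N ε) ≤ Cardinal.lift.{u+1} T.μ
  e_mem : ∀ η ε, η < ε → ε < (Order.succ T.μ).ord → ∀ x ∈ N η, ∀ y ∈ N η,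
    e x y ∈ N ε ∧ e' x y ∈ N ε
  f_mem : ∀ η ε, η < ε → ε < (Order.succ T.μ).ord → ∀ ξ ∈ N η, ∀ q i, T.f q ξ i ∈ N ε
  chi_mem : ∀ η ε, η < ε → ε < (Order.succ T.μ).ord → ∀ q, chi (N η) (T.lam q).ord ∈ N ε
  dom : ∀ η ε, η < ε → ε < (Order.succ T.μ).ord → ∀ q, ∃ ξ ∈ N ε, ξ < (T.lam q).ord ∧
    ∀ ζ, ξ ≤ ζ → ζ < (T.lam q).ord → ∀ D, HasCof D (fun i => (T.c i).ord) (T.lam q) →
      dlt D (fun i => chi (N η) (T.c i).ord) (T.f q ζ)

end Helper55.AR
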