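import Pool.Agent.Helper55.AR.Defs
import Pool.Agent.Helper55.CP.Capture

/-! Unions of chains are good. -/

set_option autoImplicit false

open Cardinal Ordinal Set Filter Helper23.Pcf Helper55.CP

universe u

namespace Helper55.AR

section facts
variable {T : Sys.{u}} {e e' : Ordinal.{u} → Ordinal.{u} → Ordinal.{u}}
  {N : Ordinal.{u} → Set Ordinal.{u}}

theorem ACh.chi_lt (h : ACh T e e' N) {ε : Ordinal.{u}}
    (hεμ : ε < (Order.succ T.μ).ord) (q : T.Q) :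
    chi (N ε) (T.lam q).ord < (T.lam q).ord :=
  Helper55.CP.chi_lt (T.regl q) ((h.card ε hεμ).trans_lt (Cardinal.lift_lt.2 (T.hlam q)))

theorem ACh.chi_lt' (h : ACh T e e' N) {ε : Ordinal.{u}}
    (hεμ : ε < (Order.succ T.μ).ord) (i : T.ι) :
    chi (N ε) (T.c i).ord < (T.c i).ord :=
  Helper55.CP.chi_lt (T.reg i) ((h.card ε hεμ).trans_lt (Cardinal.lift_lt.2 (T.hc i)))

theorem ACh.chi_strict (h : ACh T e e' N) {η ε : Ordinal.{u}} (hη : η < ε)
    (hεμ : ε < (Order.succ T.μ).ord) (q : T.Q) :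
    chi (N η) (T.lam q).ord < chi (N ε) (T.lam q).ord :=
  lt_chi (h.chi_mem η ε hη hεμ q) (h.chi_lt (hη.trans hεμ) q)

theorem ACh.chi_mono (h : ACh T e e' N) {η ε : Ordinal.{u}} (hη : η ≤ ε) (o : Ordinal.{u}) :
    chi (N η) o ≤ chi (N ε) o :=
  Helper55.CP.chi_mono (h.mono _ _ hη)

theorem ACh.chi_cont (h : ACh T e e' N) {ε : Ordinal.{u}} (hε : Order.IsSuccLimit ε)
    {o x : Ordinal.{u}} (hx : x < chi (N ε) o) :
    ∃ η < ε, x < chi (N η) o := by
  obtain ⟨z, hz, hzo, hxz⟩ := exists_of_lt_chi hx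
  obtain ⟨η, hη, h1⟩ := h.lim ε hε z hz
  exact ⟨η, hη, hxz.trans_lt (lt_chi h1 hzo)⟩

theorem ACh.chi_cof (h : ACh T e e' N) {ε : Ordinal.{u}} (hε : Order.IsSuccLimit ε)
    (hεμ : ε < (Order.succ T.μ).ord) (q : T.Q) :
    (chi (N ε) (T.lam q).ord).cof = ε.cof := by
  have hmono : StrictMono (fun i : Iio ε => chi (N i.1) (T.lam q).ord) :=
    fun i j hij => h.chi_strict hij (lt_trans j.2 hεμ) q
  have h1 : ⨆ i : Iio ε, chi (N i.1) (T.lam q).ord =
      chi (N ε) (T.lam q).ord := by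
    apply le_antisymm
    · exact Ordinal.iSup_le fun i => (h.chi_mono (le_of_lt i.2) _)
    · apply le_of_forall_lt
      intro x hx
      obtain ⟨j, hj, hxj⟩ := h.chi_cont hε hx
      exact lt_of_lt_of_le hxj
        (Ordinal.le_iSup (fun i : Iio ε => chi (N i.1) (T.lam q).ord) ⟨j, hj⟩)
  rw [← h1]
  exact Ordinal.cof_iSup_Iio hmono hε.isSuccPrelimit

theorem ACh.club_chi (h : ACh T e e' N) {ε : Ordinal.{u}} (hε : Order.IsSuccLimit ε)
    (hεμ : ε < (Order.succ T.μ).ord) (q : T.Q) :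
    ClubIn {x | ∃ i < ε, chi (N i) (T.lam q).ord = x} (chi (N ε) (T.lam q).ord) :=
  club_range hε (fun i => chi (N i) (T.lam q).ord)
    (fun _ _ hij hj => h.chi_strict hij (lt_of_le_of_lt hj hεμ) q)
    (fun _ _ hi _ hx => h.chi_cont hi hx)

theorem ACh.club_sub (h : ACh T e e' N) {ε : Ordinal.{u}} (hε : Order.IsSuccLimit ε)
    (hεμ : ε < (Order.succ T.μ).ord) (q : T.Q) :
    {x | ∃ i < ε, chi (N i) (T.lam q).ord = x} ⊆ N ε := by
  rintro _ ⟨i, hi, rfl⟩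
  exact h.mono _ _ (Order.succ_le_of_lt hi) (h.chi_mem i _ (Order.lt_succ i)
    ((hε.succ_lt hi).trans hεμ) q)

theorem ACh.f_closed (h : ACh T e e' N) {ε : Ordinal.{u}} (hε : Order.IsSuccLimit ε)
    (hεμ : ε < (Order.succ T.μ).ord) {ξ : Ordinal.{u}} (hξ : ξ ∈ N ε) (q : T.Q) (i : T.ι) :
    T.f q ξ i ∈ N ε := by
  obtain ⟨η, hη, h1⟩ := h.lim ε hε ξ hξ
  exact h.f_mem η ε hη hεμ ξ h1 q i

theorem ACh.e_closed (h : ACh T e e' N) {ε : Ordinal.{u}} (hε : Order.IsSuccLimit ε)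
    (hεμ : ε < (Order.succ T.μ).ord) {x y : Ordinal.{u}} (hx : x ∈ N ε) (hy : y ∈ N ε) :
    e x y ∈ N ε ∧ e' x y ∈ N ε := by
  obtain ⟨η, hη, h1⟩ := h.lim ε hε x hx
  obtain ⟨η', hη', h2⟩ := h.lim ε hε y hy
  exact h.e_mem (max η η') ε (max_lt hη hη') hεμ x (h.mono _ _ (le_max_left _ _) h1) y
    (h.mono _ _ (le_max_right _ _) h2)

/-- the upper bound -/
theorem ACh.f_le (h : ACh T e e' N) {ε : Ordinal.{u}}
    (hε : ε.cof = Order.succ (Order.succ T.ν))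
    (hεμ : ε < (Order.succ T.μ).ord) (q : T.Q) (i : T.ι) :
    T.f q (chi (N ε) (T.lam q).ord) i ≤ chi (N ε) (T.c i).ord := by
  have hlim : Order.IsSuccLimit ε := by
    rw [← Ordinal.one_lt_cof_iff, hε]
    exact one_lt_aleph0.trans (T.hν0.trans ((Order.lt_succ _).trans (Order.lt_succ _)))
  refine (T.f_ob q _ (h.chi_lt hεμ q) (by rw [h.chi_cof hlim hεμ, hε]) _
    (h.club_chi hlim hεμ q) i).trans ?_
  refine csSup_le' ?_
  rintro y ⟨ξ, h1, _, rfl⟩
  exact (lt_chi (h.f_closed hlim hεμ (h.club_sub hlim hεμ q h1) q i) (T.f_lt q _ i)).le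

/-- the lower bound -/
theorem ACh.le_f (h : ACh T e e' N) {ε : Ordinal.{u}}
    (hε : ε.cof = Order.succ (Order.succ T.ν))
    (hεμ : ε < (Order.succ T.μ).ord) (q : T.Q) {D : Ultrafilter T.ι}
    (hD : HasCof D (fun i => (T.c i).ord) (T.lam q)) :
    ∀ᶠ i in D, chi (N ε) (T.c i).ord ≤ T.f q (chi (N ε) (T.lam q).ord) i := by
  have hlim : Order.IsSuccLimit ε := by
    rw [← Ordinal.one_lt_cof_iff, hε]
    exact one_lt_aleph0.trans (T.hν0.trans ((Order.lt_succ _).trans (Order.lt_succ _)))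
  set δ := chi (N ε) (T.lam q).ord with hδ
  by_contra hcon
  rw [← Ultrafilter.eventually_not] at hcon
  have h1 : ∀ i, ∃ η < ε, T.f q δ i < chi (N ε) (T.c i).ord →
      T.f q δ i < chi (N η) (T.c i).ord := by
    intro i
    by_cases hp : T.f q δ i < chi (N ε) (T.c i).ord
    · obtain ⟨η, hη, h2⟩ := h.chi_cont hlim hp
      exact ⟨η, hη, fun _ => h2⟩
    · exact ⟨0, hlim.bot_lt, fun h => absurd h hp⟩
  choose η hη h2 using h1
  have hη' : ⨆ i, η i < ε := by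
    refine Ordinal.iSup_lt_of_lt_cof ?_ hη
    rw [hε]
    exact T.hι.trans ((Order.lt_succ _).trans (Order.lt_succ _))
  obtain ⟨ξ, hξ, hξ2, h4⟩ := h.dom _ ε hη' hεμ q
  have hξδ : ξ < δ := lt_chi hξ hξ2
  have h5 := h4 δ hξδ.le (h.chi_lt hεμ q) D hD
  obtain ⟨i, hi, hi'⟩ := (hcon.and h5).exists
  have g5 := h2 i (not_le.1 hi)
  have g6 : chi (N (η i)) (T.c i).ord ≤ chi (N (⨆ i, η i)) (T.c i).ord :=
    h.chi_mono (Ordinal.le_iSup η i) _
  exact absurd (g5.trans_le g6) (not_lt.2 hi'.le)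

theorem ACh.good (h : ACh T e e' N) :
    Good T e e' (N (Order.succ (Order.succ T.ν)).ord) := by
  classical
  set ε := (Order.succ (Order.succ T.ν)).ord with hεdef
  have hreg : (Order.succ (Order.succ T.ν)).IsRegular :=
    Cardinal.isRegular_succ (T.hν.1.trans (Order.le_succ _))
  have hε : ε.cof = Order.succ (Order.succ T.ν) := hreg.cof_ord
  have hεμ : ε < (Order.succ T.μ).ord := Cardinal.ord_lt_ord.2 (T.hνμ.trans_lt (Order.lt_succ _))
  have hlim : Order.IsSuccLimit ε := Cardinal.isSuccLimit_ord hreg.1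
  have hω : ℵ₀ < Order.succ (Order.succ T.ν) :=
    T.hν0.trans ((Order.lt_succ _).trans (Order.lt_succ _))
  refine ⟨h.card ε hεμ, h.base ε, fun x hx y hy => (h.e_closed hlim hεμ hx hy).1,
    fun x hx y hy => (h.e_closed hlim hεμ hx hy).2, fun i => ?_, ?_⟩
  · obtain ⟨q, hq⟩ := T.hci i
    rw [← hq, h.chi_cof hlim hεμ, hε]
    exact ⟨hω, _, h.club_sub hlim hεμ q, h.club_chi hlim hεμ q⟩
  · obtain ⟨t, ht⟩ := uf_compact (J := T.Q)
      (fun q => {i | chi (N ε) (T.c i).ord = T.f q (chi (N ε) (T.lam q).ord) i}) Set.univ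
      (fun D _ => by
        obtain ⟨q, hq⟩ := T.cof D
        refine ⟨q, ?_⟩
        filter_upwards [h.le_f hε hεμ q hq] with i hi
        exact le_antisymm hi (h.f_le hε hεμ q i))
    refine ⟨t, fun q => chi (N ε) (T.lam q).ord, fun q => h.chi_lt hεμ q,
      fun i q _ => h.f_le hε hεμ q i, fun i => ?_⟩
    obtain ⟨q, hq, hi⟩ := mem_iUnion₂.1 (ht (mem_univ i))
    exact ⟨q, hq, hi⟩

end facts

end Helper55.AR
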