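import Pool.Agent.Helper55.AR.Main
import Pool.Agent.Helper55.PB.Pred

/-! Club guessing by `κ⁺⁺` sets of size `κ⁺` bounds `|pcf(a_α)|` by `κ⁺⁺`. -/

set_option autoImplicit false

open Cardinal Ordinal Set Helper23.Pcf Helper85.Refl Helper55.PB

universe u

namespace Helper55.AR

/-- For any `κ⁺⁺` sets of size at least `κ⁺` some club of `κ⁺⁺` contains none of them. -/
def NoGuess (κ : Cardinal.{u}) : Prop :=
  ∀ P : Set (Set Ordinal.{u}), #P ≤ Cardinal.lift.{u + 1} (Order.succ (Order.succ κ)) →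
    (∀ c ∈ P, Cardinal.lift.{u + 1} (Order.succ κ) ≤ #c) →
    ∃ D ⊆ Set.Iio (Order.succ (Order.succ κ)).ord, ClubIn D (Order.succ (Order.succ κ)).ord ∧
      ∀ c ∈ P, ¬ c ⊆ D

theorem exists_enum {σ : Cardinal.{u}} {b : Ordinal.{u}} {c : Set Ordinal.{u}}
    (hc : c ⊆ Iio b) (h : Cardinal.lift.{u+1} σ ≤ #c) :
    ∃ e : Ordinal.{u} → Ordinal.{u}, (∀ i < σ.ord, ∀ j < i, e j < e i) ∧
      ∀ i < σ.ord, e i ∈ c := by
  classical
  have hub : ¬ BddAbove (c ∪ Ici b) := by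
    rintro ⟨x, hx⟩
    have h1 : max b (Order.succ x) ≤ x := hx (Or.inr (mem_Ici.2 (le_max_left _ _)))
    exact absurd ((le_max_right b _).trans h1) (not_le.2 (Order.lt_succ x))
  have hmono := Ordinal.enumOrd_strictMono hub
  refine ⟨Ordinal.enumOrd (c ∪ Ici b), fun i _ j hj => hmono hj, fun i hi => ?_⟩
  rcases Ordinal.enumOrd_mem hub i with h1 | h1
  · exact h1
  exfalso
  have h2 : c ⊆ Ordinal.enumOrd (c ∪ Ici b) '' Iio i := by
    intro x hx
    obtain ⟨j, hj⟩ := Ordinal.enumOrd_surjective hub (Or.inl hx : x ∈ c ∪ Ici b)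
    refine ⟨j, ?_, hj⟩
    rw [mem_Iio]
    by_contra hcon
    have h3 : Ordinal.enumOrd (c ∪ Ici b) i ≤ Ordinal.enumOrd (c ∪ Ici b) j :=
      hmono.monotone (not_lt.1 hcon)
    rw [hj] at h3
    exact absurd (hc hx) (not_lt.2 ((mem_Ici.1 h1).trans h3))
  have h3 : #c ≤ Cardinal.lift.{u+1} i.card := by
    refine (Cardinal.mk_le_mk_of_subset h2).trans (Cardinal.mk_image_le.trans ?_)
    rw [Cardinal.mk_Iio_ordinal]
  have h4 : i.card < σ := Cardinal.lt_ord.1 hi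
  exact absurd (h.trans h3) (not_le.2 (Cardinal.lift_lt.2 h4))

theorem pcf_le_of_guess {α : Ordinal.{u}} {κ : Cardinal.{u}} (hα : Order.IsSuccLimit α)
    (hκ : #(aSet α) = Cardinal.lift.{u+1} κ) (h0 : ℵ₀ ≤ κ) (hG : ¬ NoGuess κ) :
    #(pcf (aSet α)) ≤ Cardinal.lift.{u+1} (Order.succ (Order.succ κ)) := by
  classical
  unfold NoGuess at hG
  push Not at hG
  obtain ⟨P, hP, hPc, hD⟩ := hG
  set θ := Order.succ (Order.succ κ) with hθ
  have hκ1 : κ < Order.succ κ := Order.lt_succ κ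
  have h1θ : Order.succ κ < θ := Order.lt_succ _
  have h1 : ℵ₀ ≤ Order.succ κ := h0.trans hκ1.le
  have hθreg : θ.IsRegular := Cardinal.isRegular_succ h1
  have hθ0 : ℵ₀ ≤ Cardinal.lift.{u+1} θ := Cardinal.aleph0_le_lift.2 hθreg.1
  let P' : Set (Set Ordinal.{u}) := range fun p : P × Iio θ.ord => (p.1.1 ∩ Iio p.2.1)
  have hP' : #P' ≤ Cardinal.lift.{u+1} θ := by
    refine Cardinal.mk_range_le.trans ?_
    rw [Cardinal.mk_prod, Cardinal.lift_id, Cardinal.lift_id]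
    refine (Cardinal.mul_le_max _ _).trans (max_le (max_le hP ?_) hθ0)
    rw [Cardinal.mk_Iio_ordinal, Cardinal.card_ord]
  have hlim : Order.IsSuccLimit (Order.succ κ).ord := Cardinal.isSuccLimit_ord h1
  refine (pcf_le_of_predicts hα hκ hθreg (hκ1.trans h1θ) (P := P') ?_).trans (max_le le_rfl hP')
  intro D hDs hDc
  obtain ⟨c, hc, hcD⟩ := hD D hDs hDc
  obtain ⟨e, he1, he2⟩ := exists_enum (hcD.trans hDs) (hPc c hc)
  refine ⟨e, he1, fun i hi => hcD (he2 i hi), fun ε hε => ?_⟩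
  refine ⟨c ∩ Iio (e ε), ⟨(⟨c, hc⟩, ⟨e ε, hDs (hcD (he2 ε hε))⟩), rfl⟩, ?_,
    fun x hx => hcD hx.1, ε, hε, fun x hx => hx.2⟩
  rintro _ ⟨j, hj, rfl⟩
  exact ⟨he2 j (lt_trans hj hε), he1 ε hε j hj⟩

theorem upper' (α : Ordinal.{u}) (κ : Cardinal.{u}) (hα : Order.IsSuccLimit α)
    (hκ : #(aSet α) = Cardinal.lift.{u + 1} κ) :
    #(pcf (aSet α)) ≤ Cardinal.lift.{u + 1} (Order.succ (Order.succ κ)) ∨
    (#(pcf (aSet α)) = Cardinal.lift.{u + 1} (Order.succ (Order.succ (Order.succ κ))) ∧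
      bNum κ ≤ Order.succ (Order.succ (Order.succ κ)) ∧
      Order.succ (Order.succ (Order.succ κ)) ≤ dNum κ ∧ NoGuess κ) := by
  rcases upper α κ hα hκ with h | ⟨h1, h2, h3⟩
  · exact Or.inl h
  · by_cases hG : NoGuess κ
    · exact Or.inr ⟨h1, h2, h3, hG⟩
    · have h0 : ℵ₀ ≤ κ := by
        have h0' := Pool.Agent.Helper15.PC.aleph0_le_of_large (X := κ.out) hα
          (by rw [Cardinal.mk_out]; exact hκ.le) (c := #(pcf (aSet α)))
          (by rw [h1, Ne, Cardinal.lift_eq_zero]; exact (Cardinal.succ_ne_zero _)) le_rfl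
        rwa [Cardinal.mk_out] at h0'
      exact Or.inl (pcf_le_of_guess hα hκ h0 hG)

theorem arith' (α : Ordinal.{u}) (hα : Order.IsSuccLimit α) :
    (ℵ_ α) ^ α.card ≤ 2 ^ α.card + ℵ_ (Order.succ (Order.succ (Order.succ α.card))).ord ∨
    (bNum α.card ≤ Order.succ (Order.succ (Order.succ α.card)) ∧
      Order.succ (Order.succ (Order.succ α.card)) ≤ dNum α.card ∧ NoGuess α.card) := by
  obtain ⟨κ, hκ', hκ⟩ := Cardinal.le_lift_iff.1 (mk_aSet_le α)
  have h3 : α.card < Order.succ (Order.succ (Order.succ α.card)) :=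
    (Order.lt_succ _).trans ((Order.lt_succ _).trans (Order.lt_succ _))
  rcases upper' α κ hα hκ.symm with h | ⟨h1, h2, h4⟩
  · left
    refine bridge hα (h.trans_lt (Cardinal.lift_lt.2 ?_)) h3
    exact (Order.succ_le_succ (Order.succ_le_succ hκ')).trans_lt (Order.lt_succ _)
  · rcases hκ'.lt_or_eq with hlt | heq
    · left
      refine bridge hα (h1.le.trans_lt (Cardinal.lift_lt.2 ?_)) h3
      exact (Order.succ_le_succ (Order.succ_le_succ (Order.succ_le_of_lt hlt))).trans_lt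
        (Order.lt_succ _)
    · right
      rw [← heq]
      exact ⟨h2, h4⟩

end Helper55.AR
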