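import Pool.Agent.Helper55.AR.Bridge
import Pool.Agent.Helper55.CR.OldWeakChains
import Pool.Agent.Helper55.CR.OldReflectionType
import Pool.Agent.Helper55.Old.ClubPrediction

/-! Bounds on `|pcf(a_α)|` and the resulting bounds on `ℵ_α ^ |α|`. -/

set_option autoImplicit false

open Cardinal Ordinal Helper23.Pcf Helper85.Refl Pool.Agent.Helper15.PC

universe u

namespace Helper55.AR

theorem mk_aSet_le (α : Ordinal.{u}) : #(aSet α) ≤ Cardinal.lift.{u+1} α.card :=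
  mk_le_card (s := aSet α) (x := α) fun κ h => ⟨h.1.1, h.2.2⟩

/-- `|pcf(a_α)|` and `ℵ_α ^ |α|` -/
theorem upper (α : Ordinal.{u}) (κ : Cardinal.{u}) (hα : Order.IsSuccLimit α)
    (hκ : #(aSet α) = Cardinal.lift.{u + 1} κ) :
    #(pcf (aSet α)) ≤ Cardinal.lift.{u + 1} (Order.succ (Order.succ κ)) ∨
    (#(pcf (aSet α)) = Cardinal.lift.{u + 1} (Order.succ (Order.succ (Order.succ κ))) ∧
      bNum κ ≤ Order.succ (Order.succ (Order.succ κ)) ∧
      Order.succ (Order.succ (Order.succ κ)) ≤ dNum κ) := by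
  rcases Helper55.Old.ClubPrediction.result.2.2.2 α κ hα hκ with h | h
  · exact Or.inl h
  · exact Or.inr ⟨h.1, h.2.1, h.2.2.1⟩

theorem arith (α : Ordinal.{u}) (hα : Order.IsSuccLimit α) :
    (ℵ_ α) ^ α.card ≤ 2 ^ α.card + ℵ_ (Order.succ (Order.succ (Order.succ α.card))).ord ∨
    (bNum α.card ≤ Order.succ (Order.succ (Order.succ α.card)) ∧
      Order.succ (Order.succ (Order.succ α.card)) ≤ dNum α.card) := by
  obtain ⟨κ, hκ', hκ⟩ := Cardinal.le_lift_iff.1 (mk_aSet_le α)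
  have h3 : α.card < Order.succ (Order.succ (Order.succ α.card)) :=
    (Order.lt_succ _).trans ((Order.lt_succ _).trans (Order.lt_succ _))
  rcases upper α κ hα hκ.symm with h | ⟨h1, h2, h4⟩
  · left
    refine bridge hα (h.trans_lt (Cardinal.lift_lt.2 ?_)) h3
    exact (Order.succ_le_succ (Order.succ_le_succ hκ')).trans_lt (Order.lt_succ _)
  · rcases hκ'.lt_or_eq with hlt | heq
    · left
      refine bridge hα (h1.le.trans_lt (Cardinal.lift_lt.2 ?_)) h3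
      exact (Order.succ_le_succ (Order.succ_le_succ (Order.succ_le_of_lt hlt))).trans_lt
        (Order.lt_succ _)
    · right
      rw [← heq]
      exact ⟨h2, h4⟩

theorem reflection {α : Ordinal.{u}} (hα : Order.IsSuccLimit α) {lam : Cardinal.{u}}
    (hlam : lam.IsRegular) (hκ : #(aSet α) < Cardinal.lift.{u + 1} lam) {S : Set Ordinal.{u}}
    (hS : StatIn S lam.ord)
    (hrefl : ∀ T : Set (Set Ordinal.{u}), #T ≤ #(aSet α) →
      (∀ Z ∈ T, Z ⊆ S ∧ StatIn Z lam.ord) →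
      ∃ B : Set Ordinal.{u}, B.Finite ∧ (∀ β ∈ B, β < lam.ord ∧ ℵ₀ < β.cof) ∧
        ∀ Z ∈ T, ∃ β ∈ B, StatIn Z β) :
    #(pcf (aSet α)) < Cardinal.lift.{u + 1} lam ∧
      (α.card < lam → (ℵ_ α) ^ α.card ≤ 2 ^ α.card + ℵ_ lam.ord) := by
  have key : #(pcf (aSet α)) < Cardinal.lift.{u + 1} lam := by
    by_contra hcon
    rw [not_lt] at hcon
    obtain ⟨C, hC, hC'⟩ := Helper55.CR.OldReflectionType.nonreflection hα hlam hκ hcon
    obtain ⟨T, hT, hT', hT''⟩ := hC' S hS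
    obtain ⟨B, hB, hB', hB''⟩ := hrefl T hT fun Z hZ => ⟨(hT' Z hZ).1, (hT' Z hZ).2.1⟩
    obtain ⟨Z, hZ, hZ'⟩ := hT'' B hB fun β hβ => (hB' β hβ).1
    obtain ⟨β, hβ, hZβ⟩ := hB'' Z hZ
    obtain ⟨x, hx, hx', _⟩ := hZβ _ (hC β (hB' β hβ).1 (hB' β hβ).2)
    have := (hZ' β hβ).2 (hB' β hβ).2
    exact Set.eq_empty_iff_forall_notMem.1 this x ⟨hx, hx'⟩
  exact ⟨key, fun h => bridge hα key h⟩

theorem violation {α : Ordinal.{u}} (hα : Order.IsSuccLimit α)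
    (h : #(aSet α) < #(pcf (aSet α)) ∨
      2 ^ α.card + ℵ_ (Order.succ α.card).ord < ℵ_ α ^ α.card) :
    #(aSet α) < #(pcf (aSet α)) := by
  rcases h with h | h
  · exact h
  · by_contra hcon
    rw [not_lt] at hcon
    refine absurd (bridge hα (lam := Order.succ α.card) ?_ (Order.lt_succ _)) (not_le.2 h)
    exact (hcon.trans (mk_aSet_le α)).trans_lt (Cardinal.lift_lt.2 (Order.lt_succ _))

theorem fn_bound (α : Ordinal.{u}) (X : Type u) (μ : Cardinal.{u}) (hα : Order.IsSuccLimit α)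
    (hμ : μ.IsRegular) (hX : #(aSet α) ≤ Cardinal.lift.{u + 1} #X) (hXμ : #X < μ) (h : FN X μ) :
    #(pcf (aSet α)) ≤ Cardinal.lift.{u + 1} μ :=
  Helper55.CR.OldWeakChains.result.2.2.1 α X μ hα hμ hX hXμ (Or.inl h)

theorem wfn_bound (h : WFN) (α : Ordinal.{u}) (hα : Order.IsSuccLimit α)
    (hc : #(aSet α) ≤ ℵ₀) :
    #(pcf (aSet α)) ≤ ℵ₁ ∧ (α.card = ℵ₀ → ℵ_ α ^ ℵ₀ ≤ 2 ^ ℵ₀ + ℵ_ (ω_ 2)) := by
  have key : #(pcf (aSet α)) ≤ ℵ₁ := Helper55.CR.OldWeakChains.result.2.2.2 h α hα hc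
  refine ⟨key, fun h0 => ?_⟩
  have h12 : (ℵ₁ : Cardinal.{u+1}) < Cardinal.lift.{u+1} (ℵ_ 2 : Cardinal.{u}) := by
    rw [Cardinal.lift_aleph]
    refine Cardinal.aleph_lt_aleph.2 ?_
    simp
  have h02 : α.card < (ℵ_ 2 : Cardinal.{u}) := by
    rw [h0, ← Cardinal.aleph_zero]
    exact Cardinal.aleph_lt_aleph.2 (by simp)
  have := bridge hα (key.trans_lt h12) h02
  rwa [h0, Cardinal.ord_aleph] at this

end Helper55.AR
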